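import Pool.Agent.N332.GK.Defs
import Pool.Agent.N169.LS.KS3

set_option autoImplicit false

/-! A5: the recursion for the class 0 of the even powers of `f` (project GK). -/

namespace Pool.Agent.N426.GK.Rec

open Finset Pool.Agent.H384R3.SPk Pool.Agent.N356.SP Pool.Agent.N332.GK Pool.Agent.N169.LS

section A5

variable {Γ R : Type*} [AddCommGroup Γ] [CommRing R] [Algebra ℝ R] {K : Cone Γ R}
  {L : R →ₗ[ℝ] ℝ} {C : Finset Γ} {θ : Γ → Γ → ℝ} {φ : Γ → R}

omit [AddCommGroup Γ] in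
theorem sum2 {M : Type*} [AddCommMonoid M] (C : Finset Γ) (F : (Fin 2 → Γ) → M) :
    ∑ V ∈ Fintype.piFinset (fun _ : Fin 2 => C), F V = ∑ s ∈ C, ∑ t ∈ C, F ![s, t] := by
  rw [← Finset.sum_product']
  refine Finset.sum_nbij' (fun V => (V 0, V 1)) (fun p => ![p.1, p.2]) ?_ ?_ ?_ ?_ ?_
  · intro V hV
    rw [Fintype.mem_piFinset] at hV
    exact Finset.mem_product.2 ⟨hV 0, hV 1⟩
  · intro p hp
    rw [Finset.mem_product] at hp
    rw [Fintype.mem_piFinset]
    intro i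
    fin_cases i
    · exact hp.1
    · exact hp.2
  · intro V _
    funext i
    fin_cases i <;> rfl
  · intro p _
    rfl
  · intro V _
    congr 1
    funext i
    fin_cases i <;> rfl

omit [AddCommGroup Γ] in
theorem sum4 {M : Type*} [AddCommMonoid M] (C : Finset Γ) (F : (Fin 4 → Γ) → M) :
    ∑ V ∈ Fintype.piFinset (fun _ : Fin 4 => C), F V =
      ∑ s ∈ C, ∑ t ∈ C, ∑ u ∈ C, ∑ v ∈ C, F ![s, t, u, v] := by
  have h1 : ∑ s ∈ C, ∑ t ∈ C, ∑ u ∈ C, ∑ v ∈ C, F ![s, t, u, v] =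
      ∑ p ∈ C ×ˢ C ×ˢ C ×ˢ C, F ![p.1, p.2.1, p.2.2.1, p.2.2.2] := by
    rw [Finset.sum_product]
    refine Finset.sum_congr rfl fun s _ => ?_
    rw [Finset.sum_product]
    refine Finset.sum_congr rfl fun t _ => ?_
    rw [Finset.sum_product]
  rw [h1]
  refine Finset.sum_nbij' (fun V => (V 0, V 1, V 2, V 3))
    (fun p => ![p.1, p.2.1, p.2.2.1, p.2.2.2]) ?_ ?_ ?_ ?_ ?_
  · intro V hV
    rw [Fintype.mem_piFinset] at hV
    exact Finset.mem_product.2 ⟨hV 0, Finset.mem_product.2 ⟨hV 1, Finset.mem_product.2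
      ⟨hV 2, hV 3⟩⟩⟩
  · intro p hp
    rw [Finset.mem_product, Finset.mem_product, Finset.mem_product] at hp
    rw [Fintype.mem_piFinset]
    intro i
    fin_cases i
    · exact hp.1
    · exact hp.2.1
    · exact hp.2.2.1
    · exact hp.2.2.2
  · intro V _
    funext i
    fin_cases i <;> rfl
  · intro p _
    rfl
  · intro V _
    congr 1
    funext i
    fin_cases i <;> rfl

theorem muA_sum [DecidableEq Γ] (hneg : ∀ s ∈ C, -s ∈ C) :
    ∑ V ∈ Fintype.piFinset (fun _ : Fin 2 => C),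
      (if V 0 + V 1 = 0 then (1:ℝ) else 0) • ∏ a, φ (V a) = muA C φ := by
  rw [sum2]
  unfold muA
  refine Finset.sum_congr rfl fun s hs => ?_
  rw [Finset.sum_eq_single_of_mem (-s) (hneg s hs)]
  · rw [if_pos, one_smul, Fin.prod_univ_two]
    · rfl
    · exact add_neg_cancel s
  · intro t _ hts
    rw [if_neg, zero_smul]
    intro h0
    exact hts (eq_neg_of_add_eq_zero_right h0)

theorem mem_DD {s t : Γ} (hs : s ∈ C) (ht : t ∈ C) : s + t ∈ DD C := by
  classical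
  unfold DD
  rw [Finset.mem_image]
  exact ⟨(s, t), Finset.mem_product.2 ⟨hs, ht⟩, rfl⟩

theorem wA_sum [DecidableEq Γ] :
    ∑ V ∈ Fintype.piFinset (fun _ : Fin 4 => C),
      (if V 0 + V 1 + V 2 + V 3 = 0 then θ (V 0) (V 1) * θ (V 2) (V 3) else 0) •
        ∏ a, φ (V a) = wA C θ φ := by
  rw [sum4]
  have h1 : ∀ r : Γ, VA C θ φ r * VA C θ φ (-r) = ∑ s ∈ C, ∑ t ∈ C, ∑ u ∈ C, ∑ v ∈ C,
      (if s + t = r then θ s t • (φ s * φ t) else 0) *
        (if u + v = -r then θ u v • (φ u * φ v) else 0) := by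
    intro r
    have h2 : ∀ d : Γ, VA C θ φ d =
        ∑ s ∈ C, ∑ t ∈ C, if s + t = d then θ s t • (φ s * φ t) else 0 := by
      intro d
      unfold VA
      refine Finset.sum_congr rfl fun s _ => Finset.sum_congr rfl fun t _ => ?_
      congr
    rw [h2, h2, Finset.sum_mul]
    refine Finset.sum_congr rfl fun s _ => ?_
    rw [Finset.sum_mul]
    refine Finset.sum_congr rfl fun t _ => ?_
    rw [Finset.mul_sum]
    refine Finset.sum_congr rfl fun u _ => ?_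
    rw [Finset.mul_sum]
  have h9 : wA C θ φ = ∑ r ∈ DD C, ∑ s ∈ C, ∑ t ∈ C, ∑ u ∈ C, ∑ v ∈ C,
      (if s + t = r then θ s t • (φ s * φ t) else 0) *
        (if u + v = -r then θ u v • (φ u * φ v) else 0) :=
    Finset.sum_congr rfl fun r _ => h1 r
  rw [h9]
  symm
  rw [Finset.sum_comm]
  refine Finset.sum_congr rfl fun s hs => ?_
  rw [Finset.sum_comm]
  refine Finset.sum_congr rfl fun t ht => ?_
  rw [Finset.sum_comm]
  refine Finset.sum_congr rfl fun u _ => ?_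
  rw [Finset.sum_comm]
  refine Finset.sum_congr rfl fun v _ => ?_
  have hm : s + t ∈ DD C := mem_DD hs ht
  rw [Finset.sum_eq_single_of_mem (s + t) hm]
  · rw [if_pos rfl]
    have h3 : (![s, t, u, v] : Fin 4 → Γ) 0 = s := rfl
    have h4 : (![s, t, u, v] : Fin 4 → Γ) 1 = t := rfl
    have h5 : (![s, t, u, v] : Fin 4 → Γ) 2 = u := rfl
    have h6 : (![s, t, u, v] : Fin 4 → Γ) 3 = v := rfl
    rw [Fin.prod_univ_four, h3, h4, h5, h6]
    by_cases h7 : s + t + u + v = 0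
    · have h8 : u + v = -(s + t) := by
        rw [add_assoc] at h7
        exact eq_neg_of_add_eq_zero_right h7
      rw [if_pos h7, if_pos h8, smul_mul_smul_comm, mul_assoc (φ s * φ t)]
    · have h8 : ¬ u + v = -(s + t) := by
        intro h8
        apply h7
        rw [add_assoc (s + t), h8, add_neg_cancel]
      rw [if_neg h7, if_neg h8, zero_smul, mul_zero]
  · intro r _ hr
    rw [if_neg (fun h => hr h.symm), zero_mul]

theorem prod_mem {ι : Type*} (s : Finset ι) (W : ι → Γ) (hφ : ∀ c, φ c ∈ K.P c) :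
    ∏ i ∈ s, φ (W i) ∈ K.P (∑ i ∈ s, W i) := by
  classical
  induction s using Finset.induction_on with
  | empty => rw [Finset.prod_empty, Finset.sum_empty]; exact K.one
  | insert a s ha ih =>
    rw [Finset.prod_insert ha, Finset.sum_insert ha]
    exact K.mul _ _ _ _ (hφ _) ih

/-- A5: the recursion -/
theorem L_rec [DecidableEq Γ] (HW : ∀ (j : ℕ), 2 ≤ j → ∀ W : Fin (2 * j) → Γ, (∀ i, W i ∈ C) →
      1 / (2 * (j : ℝ) ^ 2) *
          (∑ e : Fin 2 ↪ Fin (2 * j), if W (e 0) + W (e 1) = 0 then (1:ℝ) else 0) +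
        64 / 27 / (2 * (j : ℝ)) ^ 4 * (∑ e : Fin 4 ↪ Fin (2 * j),
          if W (e 0) + W (e 1) + W (e 2) + W (e 3) = 0 then
            θ (W (e 0)) (W (e 1)) * θ (W (e 2)) (W (e 3)) else 0) ≤ 1)
    (HE : ∀ {r N : ℕ} (e : Fin r ↪ Fin N) (H : (Fin r → Γ) → ℝ),
      ∑ W ∈ Fintype.piFinset (fun _ : Fin N => C), H (fun a => W (e a)) • ∏ i, φ (W i) =
        (∑ V ∈ Fintype.piFinset (fun _ : Fin r => C), H V • ∏ a, φ (V a)) *
          (∑ c ∈ C, φ c) ^ (N - r))
    (hL : IsFun K L) (h : GoodC C θ) (hφ : ∀ c, φ c ∈ K.P c) {j : ℕ} (hj : 2 ≤ j) :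
    (2 * (j : ℝ) - 1) / j * L (muA C φ * fA C φ ^ (2 * j - 2)) +
      cc j * L (wA C θ φ * fA C φ ^ (2 * j - 4)) ≤ L (fA C φ ^ (2 * j)) := by
  set P : (Fin (2 * j) → Γ) → ℝ := fun W => L (∏ i, φ (W i)) with hP
  have hP0 : ∀ W, 0 ≤ P W := fun W => L_nn hL (prod_mem Finset.univ W hφ)
  -- the sum of all words
  have h0 : L (fA C φ ^ (2 * j)) =
      ∑ W ∈ Fintype.piFinset (fun _ : Fin (2 * j) => C), P W := by
    have h1 : fA C φ ^ (2 * j) =
        ∑ W ∈ Fintype.piFinset (fun _ : Fin (2 * j) => C), ∏ i, φ (W i) := by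
      rw [← Finset.prod_univ_sum (fun _ : Fin (2 * j) => C) (fun _ c => φ c)]
      rw [Finset.prod_const, Finset.card_univ, Fintype.card_fin]
      rfl
    rw [h1, map_sum]
  -- expansion with marked positions
  have hE : ∀ {r : ℕ} (e : Fin r ↪ Fin (2 * j)) (H : (Fin r → Γ) → ℝ),
      ∑ W ∈ Fintype.piFinset (fun _ : Fin (2 * j) => C), H (fun a => W (e a)) * P W =
        L ((∑ V ∈ Fintype.piFinset (fun _ : Fin r => C), H V • ∏ a, φ (V a)) *
          fA C φ ^ (2 * j - r)) := by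
    intro r e H
    have h1 := HE e H
    have h2 : fA C φ = ∑ c ∈ C, φ c := rfl
    rw [h2, ← h1, map_sum]
    refine Finset.sum_congr rfl fun W _ => ?_
    rw [map_smul, smul_eq_mul]
  have h2 : ∑ W ∈ Fintype.piFinset (fun _ : Fin (2 * j) => C),
      (∑ e : Fin 2 ↪ Fin (2 * j), if W (e 0) + W (e 1) = 0 then (1:ℝ) else 0) * P W =
      (2 * (j:ℝ)) * (2 * (j:ℝ) - 1) * L (muA C φ * fA C φ ^ (2 * j - 2)) := by
    rw [Finset.sum_congr rfl fun W _ => Finset.sum_mul _ _ _, Finset.sum_comm]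
    rw [Finset.sum_congr rfl fun e _ =>
      hE e (fun V : Fin 2 → Γ => if V 0 + V 1 = 0 then (1:ℝ) else 0)]
    rw [Finset.sum_const, muA_sum h.neg, Finset.card_univ, Fintype.card_embedding_eq,
      Fintype.card_fin, Fintype.card_fin, nsmul_eq_mul]
    congr 1
    have h3 : (2 * j).descFactorial 2 = (2 * j - 1) * (2 * j) := by
      rw [Nat.descFactorial_succ, Nat.descFactorial_one]
    rw [h3]
    push_cast [Nat.cast_sub (show 1 ≤ 2 * j by omega)]
    ring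
  have h4 : ∑ W ∈ Fintype.piFinset (fun _ : Fin (2 * j) => C),
      (∑ e : Fin 4 ↪ Fin (2 * j), if W (e 0) + W (e 1) + W (e 2) + W (e 3) = 0 then
        θ (W (e 0)) (W (e 1)) * θ (W (e 2)) (W (e 3)) else 0) * P W =
      (2 * (j:ℝ)) * (2 * (j:ℝ) - 1) * (2 * (j:ℝ) - 2) * (2 * (j:ℝ) - 3) *
        L (wA C θ φ * fA C φ ^ (2 * j - 4)) := by
    rw [Finset.sum_congr rfl fun W _ => Finset.sum_mul _ _ _, Finset.sum_comm]
    rw [Finset.sum_congr rfl fun e _ =>
      hE e (fun V : Fin 4 → Γ => if V 0 + V 1 + V 2 + V 3 = 0 then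
        θ (V 0) (V 1) * θ (V 2) (V 3) else 0)]
    rw [Finset.sum_const, wA_sum, Finset.card_univ, Fintype.card_embedding_eq,
      Fintype.card_fin, Fintype.card_fin, nsmul_eq_mul]
    congr 1
    have h3 : (2 * j).descFactorial 4 = (2 * j - 3) * ((2 * j - 2) * ((2 * j - 1) * (2 * j))) := by
      rw [Nat.descFactorial_succ, Nat.descFactorial_succ, Nat.descFactorial_succ,
        Nat.descFactorial_one]
    rw [h3]
    push_cast [Nat.cast_sub (show 1 ≤ 2 * j by omega), Nat.cast_sub (show 2 ≤ 2 * j by omega),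
      Nat.cast_sub (show 3 ≤ 2 * j by omega)]
    ring
  have hj0 : (0:ℝ) < j := by
    have : 0 < j := by omega
    exact_mod_cast this
  -- the inequality for words, weighted
  have h5 : ∀ W ∈ Fintype.piFinset (fun _ : Fin (2 * j) => C),
      1 / (2 * (j : ℝ) ^ 2) *
          ((∑ e : Fin 2 ↪ Fin (2 * j), if W (e 0) + W (e 1) = 0 then (1:ℝ) else 0) * P W) +
        64 / 27 / (2 * (j : ℝ)) ^ 4 * ((∑ e : Fin 4 ↪ Fin (2 * j),
          if W (e 0) + W (e 1) + W (e 2) + W (e 3) = 0 then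
            θ (W (e 0)) (W (e 1)) * θ (W (e 2)) (W (e 3)) else 0) * P W) ≤ P W := by
    intro W hW
    rw [Fintype.mem_piFinset] at hW
    have h6 := mul_le_mul_of_nonneg_right (HW j hj W hW) (hP0 W)
    rw [one_mul, add_mul, mul_assoc, mul_assoc] at h6
    exact h6
  have h7 := Finset.sum_le_sum h5
  rw [Finset.sum_add_distrib, ← Finset.mul_sum, ← Finset.mul_sum, h2, h4, ← h0] at h7
  refine le_trans (le_of_eq ?_) h7
  unfold cc
  have e1 : (2 * (j : ℝ) - 1) / j = 1 / (2 * (j : ℝ) ^ 2) * ((2 * (j:ℝ)) * (2 * (j:ℝ) - 1)) := by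
    field_simp
  have e2 : 64 / 27 * (1 - 1 / (2 * (j:ℝ))) * (1 - 1 / (j:ℝ)) * (1 - 3 / (2 * (j:ℝ))) =
      64 / 27 / (2 * (j : ℝ)) ^ 4 *
        ((2 * (j:ℝ)) * (2 * (j:ℝ) - 1) * (2 * (j:ℝ) - 2) * (2 * (j:ℝ) - 3)) := by
    field_simp
  rw [e1, e2, mul_assoc, mul_assoc (64 / 27 / (2 * (j : ℝ)) ^ 4)]

end A5

end Pool.Agent.N426.GK.Rec
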